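import Pool.Agent.W2helper31.GP.Stm2

set_option autoImplicit false

/-! Project GP, piece NUMF: `(1 + 1/y) log (1 + y)` is increasing on the positive reals. -/

namespace Pool.Agent.W2helper51.GP

open Pool.Agent.W2helper31.GP

theorem numf_hasDeriv (y : ℝ) (hy : 0 < y) :
    HasDerivAt (fun t : ℝ => (1 + 1 / t) * Real.log (1 + t))
      ((y - Real.log (1 + y)) / y ^ 2) y := by
  have h1 : HasDerivAt (fun t : ℝ => 1 + 1 / t) (-(1 / y ^ 2)) y := by
    have h := (hasDerivAt_inv hy.ne').const_add 1
    refine (h.congr_deriv ?_).congr_of_eventuallyEq ?_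
    · rw [one_div]
    · exact Filter.Eventually.of_forall (fun t => by simp [one_div])
  have h2 : HasDerivAt (fun t : ℝ => Real.log (1 + t)) (1 / (1 + y)) y := by
    have h := ((hasDerivAt_id y).const_add 1).log (by simp; linarith)
    simpa using h
  refine (h1.mul h2).congr_deriv ?_
  have h3 : (1 + y) ≠ 0 := by linarith
  field_simp
  ring

theorem numf : P_NUMF := by
  intro y z hy hyz
  have hmono : MonotoneOn (fun t : ℝ => (1 + 1 / t) * Real.log (1 + t)) (Set.Ioi 0) := by
    refine monotoneOn_of_deriv_nonneg (convex_Ioi 0) ?_ ?_ ?_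
    · intro t ht
      exact (numf_hasDeriv t ht).continuousAt.continuousWithinAt
    · intro t ht
      rw [interior_Ioi] at ht
      exact (numf_hasDeriv t ht).differentiableAt.differentiableWithinAt
    · intro t ht
      rw [interior_Ioi] at ht
      rw [(numf_hasDeriv t ht).deriv]
      have ht' : (0 : ℝ) < t := ht
      have h1 : Real.log (1 + t) ≤ t := by
        have := Real.log_le_sub_one_of_pos (show (0 : ℝ) < 1 + t by linarith)
        linarith
      exact div_nonneg (by linarith) (by positivity)
  exact hmono hy (lt_of_lt_of_le hy hyz) hyz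

end Pool.Agent.W2helper51.GP
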