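import Pool.Agent.W2helper31.GP.Stm

/-!
# Project GP (helper31), piece SMALL
-/

set_option autoImplicit false

open MeasureTheory ProbabilityTheory
open scoped ENNReal NNReal

namespace Pool.Agent.W2helper51.GP

open Pool.Agent.W2helper31.GP

lemma gauss_le : gaussianReal 0 1 ≤ ENNReal.ofReal (2 / 5) • (volume : Measure ℝ) := by
  rw [gaussianReal_of_var_ne_zero 0 one_ne_zero, ← withDensity_const]
  refine withDensity_mono (Filter.Eventually.of_forall fun x => ?_)
  rw [gaussianPDF]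
  refine ENNReal.ofReal_le_ofReal ?_
  rw [gaussianPDFReal]
  have h1 : Real.exp (-(x - 0) ^ 2 / (2 * ((1 : ℝ≥0) : ℝ))) ≤ 1 := by
    rw [Real.exp_le_one_iff, NNReal.coe_one]
    nlinarith [sq_nonneg (x - 0)]
  have h2 : (5 / 2 : ℝ) ≤ Real.sqrt (2 * Real.pi * ((1 : ℝ≥0) : ℝ)) := by
    apply Real.le_sqrt_of_sq_le
    rw [NNReal.coe_one]
    nlinarith [Real.pi_gt_d2]
  have h3 : (Real.sqrt (2 * Real.pi * ((1 : ℝ≥0) : ℝ)))⁻¹ ≤ 2 / 5 := by
    rw [inv_le_comm₀ (by linarith) (by norm_num)]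
    linarith
  calc (Real.sqrt (2 * Real.pi * ((1 : ℝ≥0) : ℝ)))⁻¹ * Real.exp (-(x - 0) ^ 2 / (2 * ((1 : ℝ≥0) : ℝ)))
      ≤ (2 / 5) * 1 := mul_le_mul h3 h1 (Real.exp_nonneg _) (by norm_num)
    _ = 2 / 5 := mul_one _

lemma sq_int : Integrable (fun x : ℝ => x ^ 2) (gaussianReal 0 1) :=
  (memLp_id_gaussianReal (μ := 0) (v := 1) 2).integrable_sq

lemma sq_val : ∫ x, x ^ 2 ∂(gaussianReal 0 1) = 1 := by
  have h1 := variance_of_integral_eq_zero (μ := gaussianReal 0 1) (X := id)
    aemeasurable_id (by simp [integral_id_gaussianReal])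
  rw [variance_id_gaussianReal] at h1
  simpa using h1.symm

lemma log_le_sq {x : ℝ} (hx : 1 ≤ |x|) : ‖Real.log x‖ ≤ x ^ 2 := by
  have h0 : 0 < |x| := by linarith
  have h1 := Real.log_le_sub_one_of_pos h0
  rw [Real.log_abs] at h1
  have h2 : 0 ≤ Real.log x := by
    rw [← Real.log_abs]; exact Real.log_nonneg hx
  rw [Real.norm_eq_abs, abs_of_nonneg h2, ← sq_abs]
  nlinarith

/-- integrability on `[-1, 1]` -/
lemma int_on {f : ℝ → ℝ} (hf : IntegrableOn f (Set.Icc (-1) 1)) :
    IntegrableOn f (Set.Icc (-1) 1) (gaussianReal 0 1) := by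
  have h1 : Integrable f ((ENNReal.ofReal (2 / 5) • (volume : Measure ℝ)).restrict (Set.Icc (-1) 1)) := by
    rw [Measure.restrict_smul]
    exact hf.smul_measure ENNReal.ofReal_ne_top
  exact h1.mono_measure (Measure.restrict_mono_measure gauss_le _)

lemma log_int : Integrable (fun x : ℝ => Real.log x) (gaussianReal 0 1) := by
  have h1 : IntegrableOn (fun x : ℝ => Real.log x) (Set.Icc (-1) 1) (gaussianReal 0 1) := by
    apply int_on
    have := intervalIntegral.intervalIntegrable_log' (a := -1) (b := 1)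
    exact (intervalIntegrable_iff_integrableOn_Icc_of_le (by norm_num)).1 this
  have h2 : IntegrableOn (fun x : ℝ => Real.log x) (Set.Icc (-1) 1)ᶜ (gaussianReal 0 1) := by
    refine Integrable.mono' sq_int.integrableOn Real.measurable_log.aestronglyMeasurable ?_
    refine (ae_restrict_iff' measurableSet_Icc.compl).2 (Filter.Eventually.of_forall fun x hx => ?_)
    apply log_le_sq
    by_contra hc
    push Not at hc
    exact hx ⟨(abs_lt.1 hc).1.le, (abs_lt.1 hc).2.le⟩
  have h3 := h1.union h2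
  rwa [Set.union_compl_self, integrableOn_univ] at h3

lemma pow_int {nu : ℝ} (h0 : 0 ≤ nu) (h1 : nu ≤ 1 / 2) :
    Integrable (fun x : ℝ => |x| ^ (2 * nu)) (gaussianReal 0 1) := by
  refine Integrable.mono' (g := fun x => 1 + x ^ 2) ((integrable_const 1).add sq_int)
    (continuous_abs.rpow_const fun _ => Or.inr (by linarith)).aestronglyMeasurable ?_
  refine Filter.Eventually.of_forall fun x => ?_
  rw [Real.norm_eq_abs, abs_of_nonneg (by positivity)]
  rcases le_total |x| 1 with h | h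
  · have := Real.rpow_le_one (abs_nonneg x) h (by linarith : 0 ≤ 2 * nu)
    nlinarith [sq_nonneg x]
  · have h2 := Real.rpow_le_rpow_of_exponent_le h (by linarith : 2 * nu ≤ 2)
    have h3 : |x| ^ (2 : ℝ) = x ^ 2 := by
      rw [show (2 : ℝ) = ((2 : ℕ) : ℝ) by norm_num, Real.rpow_natCast, sq_abs]
    rw [h3] at h2
    linarith

/-- the integral over `[-1, 1]` -/
lemma near {nu : ℝ} (h0 : 0 ≤ nu) :
    ∫ x in Set.Icc (-1 : ℝ) 1, (|x| ^ (2 * nu) - 1 - 2 * nu * Real.log x) =
      8 * nu ^ 2 / (2 * nu + 1) := by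
  have hI : ∀ a b : ℝ, IntervalIntegrable (fun x : ℝ => |x| ^ (2 * nu) - 1 - 2 * nu * Real.log x)
      volume a b := by
    intro a b
    refine IntervalIntegrable.sub (IntervalIntegrable.sub ?_ intervalIntegrable_const) ?_
    · exact (continuous_abs.rpow_const fun _ => Or.inr (by linarith)).intervalIntegrable _ _
    · exact (intervalIntegral.intervalIntegrable_log').const_mul _
  rw [integral_Icc_eq_integral_Ioc, ← intervalIntegral.integral_of_le (by norm_num),
    ← intervalIntegral.integral_add_adjacent_intervals (hI (-1) 0) (hI 0 1)]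
  have hneg : ∫ x in (-1 : ℝ)..0, (|x| ^ (2 * nu) - 1 - 2 * nu * Real.log x) =
      ∫ x in (0 : ℝ)..1, (|x| ^ (2 * nu) - 1 - 2 * nu * Real.log x) := by
    have h1 := intervalIntegral.integral_comp_neg (a := 0) (b := 1)
      (fun x : ℝ => |x| ^ (2 * nu) - 1 - 2 * nu * Real.log x)
    simp only [abs_neg, Real.log_neg_eq_log, neg_zero] at h1
    exact h1.symm
  have hpos : ∫ x in (0 : ℝ)..1, (|x| ^ (2 * nu) - 1 - 2 * nu * Real.log x) =
      1 / (2 * nu + 1) - 1 + 2 * nu := by
    have h1 : ∫ x in (0 : ℝ)..1, |x| ^ (2 * nu) = 1 / (2 * nu + 1) := by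
      have h2 : ∫ x in (0 : ℝ)..1, |x| ^ (2 * nu) = ∫ x in (0 : ℝ)..1, x ^ (2 * nu) := by
        refine intervalIntegral.integral_congr fun x hx => ?_
        rw [Set.uIcc_of_le (by norm_num)] at hx
        rw [abs_of_nonneg hx.1]
      rw [h2, integral_rpow (Or.inl (by linarith)), Real.one_rpow,
        Real.zero_rpow (by linarith), sub_zero]
    have h3 : ∫ x in (0 : ℝ)..1, Real.log x = -1 := by
      rw [integral_log]; simp
    rw [intervalIntegral.integral_sub (by
        refine IntervalIntegrable.sub ?_ intervalIntegrable_const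
        exact (continuous_abs.rpow_const fun _ => Or.inr (by linarith)).intervalIntegrable _ _)
        ((intervalIntegral.intervalIntegrable_log').const_mul _),
      intervalIntegral.integral_sub
        ((continuous_abs.rpow_const fun _ => Or.inr (by linarith)).intervalIntegrable _ _)
        intervalIntegrable_const, intervalIntegral.integral_const_mul, h1, h3]
    simp
  rw [hneg, hpos]
  field_simp
  ring

lemma far {nu x : ℝ} (h0 : 0 ≤ nu) (h1 : nu ≤ 1 / 2) (hx : 1 ≤ |x|) :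
    |x| ^ (2 * nu) - 1 - 2 * nu * Real.log x ≤ 11 / 5 * nu ^ 2 * x ^ 2 := by
  have hx0 : 0 < |x| := by linarith
  obtain ⟨L, hL⟩ : ∃ L, L = 2 * Real.log |x| := ⟨_, rfl⟩
  have hL0 : 0 ≤ L := by rw [hL]; have := Real.log_nonneg hx; linarith
  have hexp : Real.exp L = x ^ 2 := by
    rw [hL, two_mul, Real.exp_add, Real.exp_log hx0, ← sq, sq_abs]
  have hpow : |x| ^ (2 * nu) = Real.exp (nu * L) := by
    rw [Real.rpow_def_of_pos hx0, hL]; ring_nf
  have hlog : 2 * nu * Real.log x = nu * L := by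
    rw [hL, Real.log_abs]; ring
  rw [hpow, hlog]
  obtain ⟨z, hz⟩ : ∃ z, z = nu * L := ⟨_, rfl⟩
  rw [← hz]
  have hz0 : 0 ≤ z := by rw [hz]; positivity
  have e1 : Real.exp z - 1 - z ≤ z ^ 2 * Real.exp z := by
    have h2 := Real.add_one_le_exp (-z)
    have h3 := Real.exp_pos z
    have h4 : Real.exp (-z) * Real.exp z = 1 := by rw [← Real.exp_add]; simp
    have h5 := mul_le_mul_of_nonneg_right h2 h3.le
    rw [h4] at h5
    -- `(1 - z) e^z ≤ 1`
    have h6 := Real.add_one_le_exp z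
    nlinarith [mul_nonneg hz0 h3.le, mul_nonneg hz0 hz0]
  have e2 : L ^ 2 ≤ 16 * (Real.exp (L / 2) * Real.exp (-2)) := by
    have h2 := Real.add_one_le_exp (L / 4 - 1)
    have h3 : L ≤ 4 * Real.exp (L / 4 - 1) := by linarith
    have h4 := pow_le_pow_left₀ hL0 h3 2
    have h5 : (4 * Real.exp (L / 4 - 1)) ^ 2 = 16 * (Real.exp (L / 2) * Real.exp (-2)) := by
      rw [mul_pow, sq (Real.exp _), ← Real.exp_add, ← Real.exp_add]
      ring_nf
    linarith
  have e3 : Real.exp z ≤ Real.exp (L / 2) := by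
    apply Real.exp_le_exp.2
    rw [hz]
    nlinarith
  have e4 : Real.exp (-2) ≤ 11 / 80 := by
    have h2 := Real.exp_one_gt_d9
    have h3 : Real.exp 2 = Real.exp 1 * Real.exp 1 := by rw [← Real.exp_add]; norm_num
    rw [Real.exp_neg, inv_le_comm₀ (Real.exp_pos _) (by norm_num), h3]
    nlinarith
  have e5 : Real.exp (L / 2) * Real.exp (L / 2) = x ^ 2 := by
    rw [← Real.exp_add, ← hexp]; ring_nf
  have hA := Real.exp_pos (L / 2)
  calc Real.exp z - 1 - z ≤ z ^ 2 * Real.exp z := e1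
    _ ≤ z ^ 2 * Real.exp (L / 2) := mul_le_mul_of_nonneg_left e3 (sq_nonneg _)
    _ = nu ^ 2 * Real.exp (L / 2) * L ^ 2 := by rw [hz]; ring
    _ ≤ nu ^ 2 * Real.exp (L / 2) * (16 * (Real.exp (L / 2) * Real.exp (-2))) :=
        mul_le_mul_of_nonneg_left e2 (by positivity)
    _ = 16 * nu ^ 2 * x ^ 2 * Real.exp (-2) := by rw [← e5]; ring
    _ ≤ 16 * nu ^ 2 * x ^ 2 * (11 / 80) := mul_le_mul_of_nonneg_left e4 (by positivity)
    _ = 11 / 5 * nu ^ 2 * x ^ 2 := by ring

theorem p_SMALL : P_SMALL := by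
  intro nu h0 h1
  have hpi := pow_int h0 h1
  refine ⟨hpi, ?_⟩
  have hfi : Integrable (fun x : ℝ => |x| ^ (2 * nu) - 1 - 2 * nu * Real.log x)
      (gaussianReal 0 1) := (hpi.sub (integrable_const 1)).sub (log_int.const_mul _)
  have htot : ∫ x, (|x| ^ (2 * nu) - 1 - 2 * nu * Real.log x) ∂(gaussianReal 0 1) =
      (∫ x, |x| ^ (2 * nu) ∂(gaussianReal 0 1)) - 1 - kap * nu := by
    have e1 : ∫ x, (|x| ^ (2 * nu) - 1 - 2 * nu * Real.log x) ∂(gaussianReal 0 1) =
        (∫ x, (|x| ^ (2 * nu) - 1) ∂(gaussianReal 0 1)) -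
          ∫ x, 2 * nu * Real.log x ∂(gaussianReal 0 1) :=
      integral_sub (f := fun x : ℝ => |x| ^ (2 * nu) - 1) (hpi.sub (integrable_const 1))
        (log_int.const_mul _)
    have e2 : ∫ x, (|x| ^ (2 * nu) - 1) ∂(gaussianReal 0 1) =
        (∫ x, |x| ^ (2 * nu) ∂(gaussianReal 0 1)) - ∫ _x, (1 : ℝ) ∂(gaussianReal 0 1) :=
      integral_sub hpi (integrable_const 1)
    rw [e1, e2, integral_const_mul]
    unfold kap
    rw [integral_const_mul]
    simp
    ring
  have hsplit := integral_add_compl (measurableSet_Icc (a := (-1 : ℝ)) (b := 1)) hfi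
  have hnear : ∫ x in Set.Icc (-1 : ℝ) 1, (|x| ^ (2 * nu) - 1 - 2 * nu * Real.log x)
      ∂(gaussianReal 0 1) ≤ 16 / 5 * nu ^ 2 := by
    have hvi : IntegrableOn (fun x : ℝ => |x| ^ (2 * nu) - 1 - 2 * nu * Real.log x)
        (Set.Icc (-1) 1) := by
      have : IntervalIntegrable (fun x : ℝ => |x| ^ (2 * nu) - 1 - 2 * nu * Real.log x)
          volume (-1) 1 := by
        refine IntervalIntegrable.sub (IntervalIntegrable.sub ?_ intervalIntegrable_const) ?_
        · exact (continuous_abs.rpow_const fun _ => Or.inr (by linarith)).intervalIntegrable _ _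
        · exact (intervalIntegral.intervalIntegrable_log').const_mul _
      exact (intervalIntegrable_iff_integrableOn_Icc_of_le (by norm_num)).1 this
    have h2 : ∫ x in Set.Icc (-1 : ℝ) 1, (|x| ^ (2 * nu) - 1 - 2 * nu * Real.log x)
        ∂(gaussianReal 0 1) ≤ ∫ x, (|x| ^ (2 * nu) - 1 - 2 * nu * Real.log x)
        ∂((ENNReal.ofReal (2 / 5) • (volume : Measure ℝ)).restrict (Set.Icc (-1) 1)) := by
      refine integral_mono_measure (Measure.restrict_mono_measure gauss_le _) ?_ ?_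
      · have h3 : ∀ᵐ x : ℝ ∂(volume : Measure ℝ), x ≠ 0 := Measure.ae_ne volume 0
        rw [Measure.restrict_smul]
        refine Measure.ae_smul_measure (ae_restrict_of_ae ?_) _
        filter_upwards [h3] with x hx
        have hx0 : 0 < |x| := abs_pos.2 hx
        have h4 := Real.add_one_le_exp (2 * nu * Real.log x)
        have h5 : |x| ^ (2 * nu) = Real.exp (2 * nu * Real.log x) := by
          rw [Real.rpow_def_of_pos hx0, Real.log_abs]; ring_nf
        simp only [Pi.zero_apply]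
        rw [h5]; linarith
      · rw [Measure.restrict_smul]
        exact hvi.smul_measure ENNReal.ofReal_ne_top
    rw [Measure.restrict_smul, integral_smul_measure, near h0,
      ENNReal.toReal_ofReal (by norm_num), smul_eq_mul] at h2
    refine h2.trans ?_
    rw [← mul_div_assoc, div_le_iff₀ (by linarith)]
    nlinarith [sq_nonneg nu, mul_nonneg h0 (sq_nonneg nu)]
  have hfar : ∫ x in (Set.Icc (-1 : ℝ) 1)ᶜ, (|x| ^ (2 * nu) - 1 - 2 * nu * Real.log x)
      ∂(gaussianReal 0 1) ≤ 11 / 5 * nu ^ 2 := by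
    have hsq : Integrable (fun x : ℝ => 11 / 5 * nu ^ 2 * x ^ 2) (gaussianReal 0 1) :=
      sq_int.const_mul _
    have h2 : ∫ x in (Set.Icc (-1 : ℝ) 1)ᶜ, (|x| ^ (2 * nu) - 1 - 2 * nu * Real.log x)
        ∂(gaussianReal 0 1) ≤ ∫ x in (Set.Icc (-1 : ℝ) 1)ᶜ, 11 / 5 * nu ^ 2 * x ^ 2
        ∂(gaussianReal 0 1) := by
      refine setIntegral_mono_on hfi.integrableOn hsq.integrableOn measurableSet_Icc.compl ?_
      intro x hx
      apply far h0 h1
      by_contra hc
      push Not at hc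
      exact hx ⟨(abs_lt.1 hc).1.le, (abs_lt.1 hc).2.le⟩
    have h3 := setIntegral_le_integral (s := (Set.Icc (-1 : ℝ) 1)ᶜ) hsq
      (Filter.Eventually.of_forall fun x => by simp only [Pi.zero_apply]; positivity)
    have h4 : ∫ x, 11 / 5 * nu ^ 2 * x ^ 2 ∂(gaussianReal 0 1) = 11 / 5 * nu ^ 2 := by
      rw [integral_const_mul, sq_val, mul_one]
    rw [h4] at h3
    exact h2.trans h3
  rw [htot] at hsplit
  linarith

end Pool.Agent.W2helper51.GP
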